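import Pool.Agent.Y957.VK.Stm3

/-! Project VK (helper957), part 3: multiplication by the logarithm. -/

set_option autoImplicit false

namespace Pool.Agent.Y145.VK

open Finset MeasureTheory Filter Topology
open Pool.Agent.Y957.VK

/-- the partial sums -/
noncomputable def PS (b : ℕ → ℂ) (n : ℕ) : ℂ := ∑ m ∈ Finset.Icc 1 n, b m

lemma abel (b : ℕ → ℂ) (N : ℕ) : ∑ n ∈ Finset.Icc 1 N, Lg n * b n =
    Lg N * PS b N - ∑ n ∈ Finset.range N, (Lg (n + 1) - Lg n) * PS b n := by
  unfold PS
  induction N with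
  | zero => simp
  | succ N ih =>
    rw [Finset.sum_Icc_succ_top (by omega), Finset.sum_Icc_succ_top (by omega),
      Finset.sum_range_succ, ih]
    ring

lemma Lg_diff (n : ℕ) : ‖Lg (n + 1) - Lg n‖ ≤ 1 / ((n : ℝ) + 3) := by
  unfold Lg
  rw [← Complex.ofReal_sub, Complex.norm_real, Real.norm_eq_abs]
  have h3 : (0 : ℝ) < (n : ℝ) + 3 := by positivity
  have e1 : Real.log (((n + 1 : ℕ) : ℝ) + 3) - Real.log ((n : ℝ) + 3) =
      Real.log (((n : ℝ) + 4) / ((n : ℝ) + 3)) := by
    rw [Real.log_div (by positivity) (by positivity)]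
    push_cast
    ring_nf
  rw [e1, abs_of_nonneg]
  · refine (Real.log_le_sub_one_of_pos (by positivity)).trans (le_of_eq ?_)
    field_simp
    ring
  · apply Real.log_nonneg
    rw [le_div_iff₀ h3]
    linarith

lemma norm_Lg (n : ℕ) : ‖Lg n‖ = Real.log ((n : ℝ) + 3) := by
  unfold Lg
  rw [Complex.norm_real, Real.norm_eq_abs, abs_of_nonneg]
  apply Real.log_nonneg
  have : (0 : ℝ) ≤ n := Nat.cast_nonneg n
  linarith

lemma norm_le (b : ℕ → ℂ) (N : ℕ) : ‖∑ n ∈ Finset.Icc 1 N, Lg n * b n‖ ≤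
    Real.log ((N : ℝ) + 3) * ‖PS b N‖ + ∑ n ∈ Finset.range N, ‖PS b n‖ / ((n : ℝ) + 3) := by
  rw [abel]
  refine (norm_sub_le _ _).trans (add_le_add ?_ ?_)
  · rw [norm_mul, norm_Lg]
  · refine (norm_sum_le _ _).trans (Finset.sum_le_sum fun n _ => ?_)
    rw [norm_mul, div_eq_mul_one_div, mul_comm]
    exact mul_le_mul_of_nonneg_left (Lg_diff n) (norm_nonneg _)

lemma log_sqrt_tendsto (K : ℕ) :
    Tendsto (fun N : ℕ => (Real.log N) ^ K / Real.sqrt N) atTop (𝓝 0) := by
  have h1 : Tendsto (fun x : ℝ => (Real.log x) ^ K / x) atTop (𝓝 0) :=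
    (Real.isLittleO_pow_log_id_atTop (n := K)).tendsto_div_nhds_zero
  have h2 : Tendsto (fun N : ℕ => Real.sqrt N) atTop atTop :=
    Real.tendsto_sqrt_atTop.comp tendsto_natCast_atTop_atTop
  have h3 := (h1.comp h2).const_mul (2 ^ K)
  rw [mul_zero] at h3
  refine h3.congr fun N => ?_
  simp only [Function.comp_apply]
  have h4 : Real.log (Real.sqrt N) = Real.log N / 2 := Real.log_sqrt (Nat.cast_nonneg N)
  rw [h4, div_pow]
  field_simp

theorem wdesc : S_WDESC := by
  intro b hb K
  have hb' : ∀ K : ℕ, Tendsto (fun N : ℕ => (Real.log N) ^ K / N * ‖PS b N‖) atTop (𝓝 0) := hb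
  -- the constant
  obtain ⟨C, hC⟩ := (hb' 0).bddAbove_range
  have hC' : ∀ n : ℕ, ‖PS b n‖ / ((n : ℝ) + 3) ≤ C := by
    intro n
    have h1 : (Real.log n) ^ 0 / n * ‖PS b n‖ ≤ C := hC ⟨n, rfl⟩
    rcases Nat.eq_zero_or_pos n with h0 | h0
    · subst h0
      have h2 : PS b 0 = 0 := by simp [PS]
      rw [h2] at h1 ⊢
      simp only [norm_zero, mul_zero] at h1
      simpa using h1
    · have hn : (0 : ℝ) < n := Nat.cast_pos.2 h0
      refine le_trans ?_ h1
      rw [pow_zero, one_div, inv_mul_eq_div]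
      exact div_le_div_of_nonneg_left (norm_nonneg _) hn (by linarith)
  have hC0 : 0 ≤ C := le_trans (by positivity) (hC' 0)
  set t : ℕ → ℝ := fun n => (Real.log n) ^ K / n * ‖PS b n‖ with ht
  have ht0 : ∀ n, 0 ≤ t n := fun n => by
    have : 0 ≤ Real.log n := Real.log_natCast_nonneg n
    simp only [ht]
    positivity
  -- the main bound
  have key : ∀ N : ℕ, (Real.log N) ^ K * ∑ n ∈ Finset.range N, ‖PS b n‖ / ((n : ℝ) + 3) ≤
      ((Nat.sqrt N : ℝ) + 1) * ((Real.log N) ^ K * C) + 2 ^ K * ∑ n ∈ Finset.range N, t n := by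
    intro N
    have hlN : 0 ≤ Real.log N := Real.log_natCast_nonneg N
    have h1 : ∀ n ∈ Finset.range N, (Real.log N) ^ K * (‖PS b n‖ / ((n : ℝ) + 3)) ≤
        (if n ≤ Nat.sqrt N then (Real.log N) ^ K * C else 0) + 2 ^ K * t n := by
      intro n hn
      rw [Finset.mem_range] at hn
      have h2 : 0 ≤ 2 ^ K * t n := mul_nonneg (by positivity) (ht0 n)
      split_ifs with h3
      · have h4 : (Real.log N) ^ K * (‖PS b n‖ / ((n : ℝ) + 3)) ≤ (Real.log N) ^ K * C :=
          mul_le_mul_of_nonneg_left (hC' n) (by positivity)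
        linarith
      · rw [zero_add]
        have h4 : N < n * n := Nat.sqrt_lt.1 (by omega)
        have hn0 : 0 < n := by
          rcases Nat.eq_zero_or_pos n with h | h
          · subst h; omega
          · exact h
        have hnR : (0 : ℝ) < n := Nat.cast_pos.2 hn0
        have hNR : (0 : ℝ) < N := Nat.cast_pos.2 (by omega)
        have h5 : Real.log N ≤ 2 * Real.log n := by
          rw [← Nat.cast_ofNat, ← Real.log_pow]
          apply Real.log_le_log hNR
          rw [sq]
          exact_mod_cast h4.le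
        have h6 : (Real.log N) ^ K ≤ 2 ^ K * (Real.log n) ^ K := by
          rw [← mul_pow]
          exact pow_le_pow_left₀ hlN h5 K
        have h7 : ‖PS b n‖ / ((n : ℝ) + 3) ≤ ‖PS b n‖ / n :=
          div_le_div_of_nonneg_left (norm_nonneg _) hnR (by linarith)
        calc (Real.log N) ^ K * (‖PS b n‖ / ((n : ℝ) + 3))
            ≤ (2 ^ K * (Real.log n) ^ K) * (‖PS b n‖ / n) := by
              apply mul_le_mul h6 h7 (by positivity)
              exact le_trans (by positivity) h6
          _ = 2 ^ K * t n := by simp only [ht]; ring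
    rw [Finset.mul_sum, Finset.mul_sum]
    refine (Finset.sum_le_sum h1).trans ?_
    rw [Finset.sum_add_distrib]
    refine add_le_add ?_ le_rfl
    rw [← Finset.sum_filter, Finset.sum_const, nsmul_eq_mul]
    apply mul_le_mul_of_nonneg_right _ (by positivity)
    have h2 : ((Finset.range N).filter (fun n => n ≤ Nat.sqrt N)).card ≤ Nat.sqrt N + 1 := by
      calc ((Finset.range N).filter (fun n => n ≤ Nat.sqrt N)).card
          ≤ (Finset.range (Nat.sqrt N + 1)).card := by
            apply Finset.card_le_card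
            intro n hn
            rw [Finset.mem_filter] at hn
            rw [Finset.mem_range]
            omega
        _ = Nat.sqrt N + 1 := Finset.card_range _
    exact_mod_cast h2
  -- the limits
  have l1 : Tendsto (fun N : ℕ => 2 * ((Real.log N) ^ (K + 1) / N * ‖PS b N‖)) atTop (𝓝 0) := by
    simpa using (hb' (K + 1)).const_mul 2
  have l2 : Tendsto (fun N : ℕ => 2 * C * ((Real.log N) ^ K / Real.sqrt N)) atTop (𝓝 0) := by
    simpa using (log_sqrt_tendsto K).const_mul (2 * C)
  have l3 : Tendsto (fun N : ℕ => 2 ^ K * ((N : ℝ)⁻¹ * ∑ n ∈ Finset.range N, t n)) atTop (𝓝 0) := by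
    simpa using ((hb' K).cesaro).const_mul (2 ^ K)
  have l4 := (l1.add l2).add l3
  rw [add_zero, add_zero] at l4
  refine squeeze_zero' (Eventually.of_forall fun N => ?_) ?_ l4
  · have : 0 ≤ Real.log N := Real.log_natCast_nonneg N
    positivity
  · filter_upwards [eventually_ge_atTop 3] with N hN
    have hNR : (3 : ℝ) ≤ N := by exact_mod_cast hN
    have hN0 : (0 : ℝ) < N := by linarith
    have hlN : 0 ≤ Real.log N := Real.log_natCast_nonneg N
    have h1 : Real.log ((N : ℝ) + 3) ≤ 2 * Real.log N := by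
      have e : 2 * Real.log (N : ℝ) = Real.log ((N : ℝ) ^ 2) := by
        rw [Real.log_pow]; norm_num
      rw [e]
      apply Real.log_le_log (by positivity)
      nlinarith
    have h2 : (Nat.sqrt N : ℝ) + 1 ≤ 2 * Real.sqrt N := by
      have h3 : (Nat.sqrt N : ℝ) ≤ Real.sqrt N := Real.nat_sqrt_le_real_sqrt
      have h4 : 1 ≤ Real.sqrt N := Real.one_le_sqrt.2 (by linarith)
      linarith
    have hs : Real.sqrt N * Real.sqrt N = N := Real.mul_self_sqrt hN0.le
    have hs0 : 0 < Real.sqrt N := Real.sqrt_pos.2 hN0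
    have h5 : (Real.log N) ^ K / N * ‖∑ n ∈ Finset.Icc 1 N, Lg n * b n‖ ≤
        (Real.log N) ^ K / N * (Real.log ((N : ℝ) + 3) * ‖PS b N‖ +
          ∑ n ∈ Finset.range N, ‖PS b n‖ / ((n : ℝ) + 3)) :=
      mul_le_mul_of_nonneg_left (norm_le b N) (by positivity)
    refine h5.trans ?_
    rw [mul_add, add_assoc]
    refine add_le_add ?_ ?_
    · calc (Real.log N) ^ K / N * (Real.log ((N : ℝ) + 3) * ‖PS b N‖)
          ≤ (Real.log N) ^ K / N * ((2 * Real.log N) * ‖PS b N‖) := by
            apply mul_le_mul_of_nonneg_left _ (by positivity)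
            exact mul_le_mul_of_nonneg_right h1 (norm_nonneg _)
        _ = 2 * ((Real.log N) ^ (K + 1) / N * ‖PS b N‖) := by ring
    · calc (Real.log N) ^ K / N * ∑ n ∈ Finset.range N, ‖PS b n‖ / ((n : ℝ) + 3)
          = (N : ℝ)⁻¹ * ((Real.log N) ^ K * ∑ n ∈ Finset.range N, ‖PS b n‖ / ((n : ℝ) + 3)) := by
            ring
        _ ≤ (N : ℝ)⁻¹ * (((Nat.sqrt N : ℝ) + 1) * ((Real.log N) ^ K * C) +
            2 ^ K * ∑ n ∈ Finset.range N, t n) :=
            mul_le_mul_of_nonneg_left (key N) (by positivity)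
        _ ≤ (N : ℝ)⁻¹ * ((2 * Real.sqrt N) * ((Real.log N) ^ K * C) +
            2 ^ K * ∑ n ∈ Finset.range N, t n) := by
            apply mul_le_mul_of_nonneg_left _ (by positivity)
            refine add_le_add ?_ le_rfl
            exact mul_le_mul_of_nonneg_right h2 (by positivity)
        _ = 2 * C * ((Real.log N) ^ K / Real.sqrt N) +
            2 ^ K * ((N : ℝ)⁻¹ * ∑ n ∈ Finset.range N, t n) := by
            have h6 : (N : ℝ)⁻¹ * Real.sqrt N = (Real.sqrt N)⁻¹ := by
              rw [← hs]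
              rw [mul_inv, mul_assoc, hs]
              field_simp
            rw [mul_add]
            congr 1
            · calc (N : ℝ)⁻¹ * (2 * Real.sqrt N * (Real.log N ^ K * C))
                  = 2 * C * (Real.log N ^ K * ((N : ℝ)⁻¹ * Real.sqrt N)) := by ring
                _ = _ := by rw [h6, div_eq_mul_inv]
            · ring

end Pool.Agent.Y145.VK
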